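import Pool.Agent.helper61.DL.Defs

set_option autoImplicit false

/-! # MODULE A1 (MP_6163c8_ag): the limit at one point -/

namespace Pool.Agent.helper18.DL

open Finset Filter Topology Pool.Agent.helper61.DL

section
variable {n : ℕ} {ι : Type} [Fintype ι] [DecidableEq ι]

/-- evaluation of a rational polynomial at `ε t` -/
theorem aeval_smul (P : MvPolynomial ι ℚ) (t : ι → ℚ) (ε : ℝ) :
    MvPolynomial.aeval (fun v => ε * (t v : ℝ)) P =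
      ∑ α ∈ P.support, ((P.coeff α * ∏ v, t v ^ α v : ℚ) : ℝ) * ε ^ (∑ v, α v) := by
  rw [MvPolynomial.aeval_def, MvPolynomial.eval₂_eq']
  refine Finset.sum_congr rfl fun α _ => ?_
  simp_rw [mul_pow]
  rw [Finset.prod_mul_distrib, Finset.prod_pow_eq_pow_sum]
  push_cast
  simp only [eq_ratCast]
  ring

/-- evaluation of a homogeneous component -/
theorem eval_hom (P : MvPolynomial ι ℚ) (t : ι → ℚ) (r : ℕ) :
    MvPolynomial.eval t (MvPolynomial.homogeneousComponent r P) =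
      ∑ α ∈ P.support, if ∑ v, α v = r then P.coeff α * ∏ v, t v ^ α v else 0 := by
  rw [MvPolynomial.homogeneousComponent_apply, map_sum, Finset.sum_filter]
  refine Finset.sum_congr rfl fun α _ => ?_
  have h : α.degree = ∑ v, α v := by
    rw [Finsupp.degree_eq_sum]
  rw [h]
  split_ifs with h'
  · rw [MvPolynomial.eval_monomial]
    congr 1
    rw [Finsupp.prod_fintype]
    simp
  · rfl

/-- the limit of a polynomial -/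
theorem lim_poly (V : ι → Fin n → ℚ) (𝒱 : Finset (Finset ι)) (t : Finset ι → ι → ℚ) (σ : Finset ι)
    (low : ∀ α : ι → ℕ, ∑ v, α v + σ.card < n →
      ∑ Δ ∈ 𝒱 with σ ⊆ Δ, (∏ v, t Δ v ^ α v) / (volQ V Δ * ∏ v ∈ Δ \ σ, t Δ v) = 0)
    (P : MvPolynomial ι ℚ) :
    Tendsto (fun ε : ℝ => ∑ Δ ∈ 𝒱 with σ ⊆ Δ, MvPolynomial.aeval (fun v => ε * (t Δ v : ℝ)) P /
      ((volQ V Δ : ℝ) * (ε ^ (n - σ.card) * ∏ v ∈ Δ \ σ, (t Δ v : ℝ)))) (𝓝[>] 0)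
      (𝓝 ((lamQ V 𝒱 t σ P : ℚ) : ℝ)) := by
  set r := n - σ.card with hr
  set A : (ι →₀ ℕ) → ℚ := fun α => ∑ Δ ∈ 𝒱 with σ ⊆ Δ, (∏ v, t Δ v ^ α v) /
    (volQ V Δ * ∏ v ∈ Δ \ σ, t Δ v) with hA
  have h1 : ∀ ε : ℝ, ∑ Δ ∈ 𝒱 with σ ⊆ Δ, MvPolynomial.aeval (fun v => ε * (t Δ v : ℝ)) P /
      ((volQ V Δ : ℝ) * (ε ^ r * ∏ v ∈ Δ \ σ, (t Δ v : ℝ))) =
      ∑ α ∈ P.support, ((P.coeff α * A α : ℚ) : ℝ) * (ε ^ (∑ v, α v) / ε ^ r) := by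
    intro ε
    simp_rw [aeval_smul, Finset.sum_div]
    rw [Finset.sum_comm]
    refine Finset.sum_congr rfl fun α _ => ?_
    simp only [hA]
    push_cast
    rw [Finset.mul_sum, Finset.sum_mul]
    refine Finset.sum_congr rfl fun Δ _ => ?_
    rcases eq_or_ne (ε ^ r) 0 with h0 | h0
    · simp [h0]
    rcases eq_or_ne ((volQ V Δ : ℝ)) 0 with h3 | h3
    · simp [h3]
    rcases eq_or_ne (∏ v ∈ Δ \ σ, (t Δ v : ℝ)) 0 with h4 | h4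
    · simp [h4]
    field_simp
  simp_rw [h1]
  have h2 : ((lamQ V 𝒱 t σ P : ℚ) : ℝ) =
      ∑ α ∈ P.support, if ∑ v, α v = r then ((P.coeff α * A α : ℚ) : ℝ) else 0 := by
    have h3 : lamQ V 𝒱 t σ P = ∑ α ∈ P.support, if ∑ v, α v = r then P.coeff α * A α else 0 := by
      unfold lamQ
      simp_rw [← hr, eval_hom, Finset.sum_div]
      rw [Finset.sum_comm]
      refine Finset.sum_congr rfl fun α _ => ?_
      split_ifs with h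
      · simp only [hA]
        rw [Finset.mul_sum]
        exact Finset.sum_congr rfl fun Δ _ => by rw [mul_div_assoc]
      · simp
    rw [h3]
    push_cast
    refine Finset.sum_congr rfl fun α _ => ?_
    split_ifs <;> simp
  rw [h2]
  refine tendsto_finsetSum _ fun α _ => ?_
  rcases lt_trichotomy (∑ v, α v) r with h | h | h
  · have hA0 : A α = 0 := low α (by omega)
    rw [if_neg h.ne, hA0]
    simp
  · rw [if_pos h, h]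
    refine (tendsto_const_nhds (x := ((P.coeff α * A α : ℚ) : ℝ))).congr' ?_
    filter_upwards [self_mem_nhdsWithin] with ε hε
    rw [div_self (pow_ne_zero _ (ne_of_gt hε)), mul_one]
  · rw [if_neg h.ne']
    have h5 : Tendsto (fun ε : ℝ => ((P.coeff α * A α : ℚ) : ℝ) * ε ^ (∑ v, α v - r)) (𝓝[>] 0) (𝓝 0) := by
      have h6 : Tendsto (fun ε : ℝ => ((P.coeff α * A α : ℚ) : ℝ) * ε ^ (∑ v, α v - r)) (𝓝 0)
          (𝓝 (((P.coeff α * A α : ℚ) : ℝ) * 0 ^ (∑ v, α v - r))) :=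
        (continuous_const.mul (continuous_pow _)).tendsto 0
      rw [zero_pow (by omega), mul_zero] at h6
      exact h6.mono_left nhdsWithin_le_nhds
    refine h5.congr' ?_
    filter_upwards [self_mem_nhdsWithin] with ε hε
    congr 1
    rw [eq_div_iff (pow_ne_zero _ (ne_of_gt hε)), ← pow_add]
    congr 1
    omega

/-- products of `1 - δ c` -/
theorem prod_one_sub {κ : Type} (s : Finset κ) (c : κ → ℝ) :
    ∃ B : ℝ → ℝ, Continuous B ∧ ∀ δ, ∏ v ∈ s, (1 - δ * c v) = 1 - δ * B δ := by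
  classical
  induction s using Finset.induction_on with
  | empty => exact ⟨fun _ => 0, continuous_const, fun δ => by simp⟩
  | insert a s ha ih =>
    obtain ⟨B, hB, h⟩ := ih
    refine ⟨fun δ => c a + B δ - δ * c a * B δ, by fun_prop, fun δ => ?_⟩
    rw [Finset.prod_insert ha, h]
    ring

/-- truncated inverse -/
noncomputable def winv (m : ℕ) (e z : ℝ) : ℝ := ∑ k ∈ Finset.range m, (-1) ^ k * z ^ k / e ^ (k + 1)

theorem winv_mul (m : ℕ) {e : ℝ} (he : e ≠ 0) (z : ℝ) :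
    (e + z) * winv m e z = 1 - (-(z / e)) ^ m := by
  unfold winv
  induction m with
  | zero => simp
  | succ m ih =>
    rw [Finset.sum_range_succ, mul_add, ih]
    have h1 : (-(z / e)) ^ m = (-1) ^ m * z ^ m / e ^ m := by
      rw [← neg_one_mul, mul_pow, div_pow]; ring
    have h2 : (-(z / e)) ^ (m + 1) = - ((-1) ^ m * z ^ (m + 1) / e ^ (m + 1)) := by
      rw [← neg_one_mul, mul_pow, div_pow, pow_succ]; ring
    rw [h1, h2]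
    field_simp
    ring

/-- the abstract limit -/
theorem lim_abstract (V : ι → Fin n → ℚ) (𝒱 : Finset (Finset ι)) (t : Finset ι → ι → ℚ) (σ : Finset ι)
    (low : ∀ α : ι → ℕ, ∑ v, α v + σ.card < n →
      ∑ Δ ∈ 𝒱 with σ ⊆ Δ, (∏ v, t Δ v ^ α v) / (volQ V Δ * ∏ v ∈ Δ \ σ, t Δ v) = 0)
    (K : Finset ℕ) (a : ℕ → ℝ) (P : ℕ → MvPolynomial ι ℚ) (c D N B : Finset ι → ℝ → ℝ)
    (hD : ∀ Δ ∈ 𝒱, σ ⊆ Δ → Continuous (D Δ) ∧ D Δ 0 ≠ 0) (hB : ∀ Δ ∈ 𝒱, σ ⊆ Δ → Continuous (B Δ))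
    (hc : ∀ Δ ∈ 𝒱, σ ⊆ Δ → Continuous (c Δ))
    (hN : ∀ Δ ∈ 𝒱, σ ⊆ Δ → ∀ ε, D Δ ε * N Δ ε = 1 - ε ^ (n + 1) * B Δ ε)
    (hP : ∀ Δ ∈ 𝒱, σ ⊆ Δ → ∀ ε, c Δ ε * N Δ ε =
      ∑ k ∈ K, a k * MvPolynomial.aeval (fun v => ε * (t Δ v : ℝ)) (P k)) :
    Tendsto (fun ε : ℝ => ∑ Δ ∈ 𝒱 with σ ⊆ Δ, c Δ ε /
      ((volQ V Δ : ℝ) * (ε ^ (n - σ.card) * ∏ v ∈ Δ \ σ, (t Δ v : ℝ)) * D Δ ε)) (𝓝[>] 0)
      (𝓝 (∑ k ∈ K, a k * ((lamQ V 𝒱 t σ (P k) : ℚ) : ℝ))) := by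
  set r := n - σ.card with hr
  -- the main part
  have h1 : Tendsto (fun ε : ℝ => ∑ k ∈ K, a k * ∑ Δ ∈ 𝒱 with σ ⊆ Δ,
      MvPolynomial.aeval (fun v => ε * (t Δ v : ℝ)) (P k) /
      ((volQ V Δ : ℝ) * (ε ^ r * ∏ v ∈ Δ \ σ, (t Δ v : ℝ)))) (𝓝[>] 0)
      (𝓝 (∑ k ∈ K, a k * ((lamQ V 𝒱 t σ (P k) : ℚ) : ℝ))) :=
    tendsto_finsetSum _ fun k _ => (lim_poly V 𝒱 t σ low (P k)).const_mul _
  -- the error
  have h2 : Tendsto (fun ε : ℝ => ∑ Δ ∈ 𝒱 with σ ⊆ Δ, ε ^ (n + 1 - r) * (c Δ ε * B Δ ε /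
      ((volQ V Δ : ℝ) * (∏ v ∈ Δ \ σ, (t Δ v : ℝ)) * D Δ ε))) (𝓝[>] 0) (𝓝 0) := by
    suffices key : Tendsto (fun ε : ℝ => ∑ Δ ∈ 𝒱 with σ ⊆ Δ, ε ^ (n + 1 - r) * (c Δ ε * B Δ ε /
      ((volQ V Δ : ℝ) * (∏ v ∈ Δ \ σ, (t Δ v : ℝ)) * D Δ ε))) (𝓝[>] 0)
        (𝓝 (∑ Δ ∈ 𝒱 with σ ⊆ Δ, (0 : ℝ))) by
      rwa [Finset.sum_const_zero] at key
    refine tendsto_finsetSum _ fun Δ hΔ => ?_
    rw [Finset.mem_filter] at hΔ
    obtain ⟨hD1, hD2⟩ := hD Δ hΔ.1 hΔ.2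
    rcases eq_or_ne ((volQ V Δ : ℝ) * (∏ v ∈ Δ \ σ, (t Δ v : ℝ))) 0 with h0 | h0
    · simp [h0]
    have h3 : ContinuousAt (fun ε : ℝ => ε ^ (n + 1 - r) * (c Δ ε * B Δ ε /
      ((volQ V Δ : ℝ) * (∏ v ∈ Δ \ σ, (t Δ v : ℝ)) * D Δ ε))) 0 := by
      refine (continuous_pow _).continuousAt.mul (ContinuousAt.div ?_ ?_ (mul_ne_zero h0 hD2))
      · exact ((hc Δ hΔ.1 hΔ.2).mul (hB Δ hΔ.1 hΔ.2)).continuousAt
      · exact (continuous_const.mul hD1).continuousAt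
    have h4 := h3.tendsto
    rw [zero_pow (by omega), zero_mul] at h4
    exact h4.mono_left nhdsWithin_le_nhds
  have h3 := h1.add h2
  rw [add_zero] at h3
  refine h3.congr' ?_
  -- `D ≠ 0` near `0`
  have h4 : ∀ᶠ ε in 𝓝[>] (0 : ℝ), ∀ Δ ∈ 𝒱.filter (σ ⊆ ·), D Δ ε ≠ 0 := by
    rw [Filter.eventually_all_finset]
    intro Δ hΔ
    rw [Finset.mem_filter] at hΔ
    obtain ⟨hD1, hD2⟩ := hD Δ hΔ.1 hΔ.2
    exact (hD1.continuousAt.eventually_ne hD2).filter_mono nhdsWithin_le_nhds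
  filter_upwards [h4, self_mem_nhdsWithin] with ε hε hpos
  have hε0 : (ε : ℝ) ≠ 0 := ne_of_gt hpos
  simp_rw [Finset.mul_sum]
  rw [Finset.sum_comm, ← Finset.sum_add_distrib]
  refine Finset.sum_congr rfl fun Δ hΔ => ?_
  have hDε := hε Δ hΔ
  rw [Finset.mem_filter] at hΔ
  have e1 := hN Δ hΔ.1 hΔ.2 ε
  have e2 := hP Δ hΔ.1 hΔ.2 ε
  have e3 : ∑ k ∈ K, a k * (MvPolynomial.aeval (fun v => ε * (t Δ v : ℝ)) (P k) /
      ((volQ V Δ : ℝ) * (ε ^ r * ∏ v ∈ Δ \ σ, (t Δ v : ℝ)))) =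
      (c Δ ε * N Δ ε) / ((volQ V Δ : ℝ) * (ε ^ r * ∏ v ∈ Δ \ σ, (t Δ v : ℝ))) := by
    rw [e2, Finset.sum_div]
    exact Finset.sum_congr rfl fun k _ => by rw [mul_div_assoc]
  rw [e3]
  have e4 : ε ^ (n + 1) = ε ^ (n + 1 - r) * ε ^ r := by
    rw [← pow_add]; congr 1; omega
  rcases eq_or_ne ((volQ V Δ : ℝ)) 0 with h0 | h0
  · simp [h0]
  rcases eq_or_ne (∏ v ∈ Δ \ σ, (t Δ v : ℝ)) 0 with h5 | h5
  · simp [h5]
  have h6 : ε ^ r ≠ 0 := pow_ne_zero _ hε0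
  rw [e4] at e1
  field_simp
  linear_combination (c Δ ε) * e1

/-- the truncated inverse of `∏_{v ∈ σ} (e_v + X_v)` -/
noncomputable def Wpoly (n : ℕ) (e : ι → ℚ) (σ : Finset ι) : MvPolynomial ι ℚ :=
  ∏ v ∈ σ, ∑ k ∈ Finset.range (n + 1), MvPolynomial.C ((-1) ^ k / e v ^ (k + 1)) * MvPolynomial.X v ^ k

theorem aeval_Wpoly (n : ℕ) (e : ι → ℚ) (σ : Finset ι) (z : ι → ℝ) :
    MvPolynomial.aeval z (Wpoly n e σ) = ∏ v ∈ σ, winv (n + 1) (e v : ℝ) (z v) := by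
  unfold Wpoly winv
  rw [map_prod]
  refine Finset.prod_congr rfl fun v _ => ?_
  rw [map_sum]
  refine Finset.sum_congr rfl fun k _ => ?_
  rw [map_mul, MvPolynomial.aeval_C, map_pow, MvPolynomial.aeval_X, eq_ratCast]
  push_cast
  ring

theorem limit_star (V : ι → Fin n → ℚ)
    (𝒱 : Finset (Finset ι)) (hcard : ∀ Δ ∈ 𝒱, Δ.card = n) (hvol : ∀ Δ ∈ 𝒱, volQ V Δ ≠ 0)
    (t : Finset ι → ι → ℚ) (ht0 : ∀ Δ ∈ 𝒱, ∀ v, v ∉ Δ → t Δ v = 0)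
    (ht : ∀ Δ ∈ 𝒱, ∀ v ∈ Δ, t Δ v ≠ 0) (e : ι → ℚ) (σ : Finset ι) (hσ : ∀ v, v ∈ σ ↔ e v ≠ 0)
    (hpos : 0 < ∑ v, e v)
    (low : ∀ α : ι → ℕ, ∑ v, α v + σ.card < n →
      ∑ Δ ∈ 𝒱 with σ ⊆ Δ, (∏ v, t Δ v ^ α v) / (volQ V Δ * ∏ v ∈ Δ \ σ, t Δ v) = 0)
    (C : MvPolynomial ι ℚ) :
    (∃ K : ℚ, Tendsto (fun ε : ℝ => ∑ Δ ∈ 𝒱 with σ ⊆ Δ,
        MvPolynomial.aeval (fun v => ε * (t Δ v : ℝ)) C /
          ((volQ V Δ : ℝ) * ∏ v ∈ Δ, ((e v : ℝ) + ε * t Δ v))) (𝓝[>] 0) (𝓝 (K : ℝ))) ∧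
    ∃ q : ℕ → ℚ, (∀ s : ℝ, 0 < s → Tendsto (fun ε : ℝ => ∑ Δ ∈ 𝒱 with σ ⊆ Δ,
        MvPolynomial.aeval (fun v => ε * (t Δ v : ℝ)) C /
          ((volQ V Δ : ℝ) * (s + ∑ v ∈ Δ, ((e v : ℝ) + ε * t Δ v)) *
            ∏ v ∈ Δ, ((e v : ℝ) + ε * t Δ v))) (𝓝[>] 0)
        (𝓝 (∑ k ∈ Finset.range (n + 1), (-1) ^ k * (q k : ℝ) / (s + (∑ v, e v : ℚ)) ^ (k + 1)))) ∧
      ((∀ P : MvPolynomial ι ℚ, lamQ V 𝒱 t σ (C * P) = 0) → ∀ k, q k = 0) := by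
  set W := Wpoly n e σ with hW
  set κ : MvPolynomial ι ℚ := ∑ v, MvPolynomial.X v with hκ
  -- the basic factor
  have hprod : ∀ Δ ∈ 𝒱, σ ⊆ Δ → ∀ ε : ℝ, ∏ v ∈ Δ, ((e v : ℝ) + ε * t Δ v) =
      (ε ^ (n - σ.card) * ∏ v ∈ Δ \ σ, (t Δ v : ℝ)) * ∏ v ∈ σ, ((e v : ℝ) + ε * t Δ v) := by
    intro Δ hΔ hs ε
    rw [← Finset.prod_sdiff hs]
    congr 1
    have h1 : ∀ v ∈ Δ \ σ, ((e v : ℝ) + ε * t Δ v) = ε * t Δ v := by
      intro v hv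
      have h2 : ¬ v ∈ σ := (Finset.mem_sdiff.1 hv).2
      rw [hσ, not_not] at h2
      rw [h2]; simp
    rw [Finset.prod_congr rfl h1, Finset.prod_mul_distrib, Finset.prod_const, Finset.card_sdiff_of_subset hs,
      hcard Δ hΔ]
  have hσe : ∀ v ∈ σ, (e v : ℝ) ≠ 0 := fun v hv => by exact_mod_cast (hσ v).1 hv
  have hW1 : ∀ (Δ : Finset ι), ∃ B : ℝ → ℝ, Continuous B ∧ ∀ ε : ℝ,
      (∏ v ∈ σ, ((e v : ℝ) + ε * t Δ v)) * MvPolynomial.aeval (fun v => ε * (t Δ v : ℝ)) W =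
        1 - ε ^ (n + 1) * B ε := by
    intro Δ
    obtain ⟨B, hB, h⟩ := prod_one_sub σ (fun v => (-(t Δ v / e v : ℝ)) ^ (n + 1))
    refine ⟨fun ε => B (ε ^ (n + 1)), hB.comp (continuous_pow _), fun ε => ?_⟩
    rw [← h, aeval_Wpoly, ← Finset.prod_mul_distrib]
    refine Finset.prod_congr rfl fun v hv => ?_
    rw [winv_mul _ (hσe v hv), ← mul_pow]
    congr 2
    ring
  choose B0 hB0c hB0 using hW1
  have hsum : ∀ Δ ∈ 𝒱, σ ⊆ Δ → ∀ ε : ℝ, ∑ v ∈ Δ, ((e v : ℝ) + ε * t Δ v) =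
      ((∑ v, e v : ℚ) : ℝ) + ε * ∑ v ∈ Δ, (t Δ v : ℝ) := by
    intro Δ hΔ hs ε
    rw [Finset.sum_add_distrib, ← Finset.mul_sum]
    congr 1
    push_cast
    refine Finset.sum_subset (Finset.subset_univ _) fun v _ hv => ?_
    have h2 : ¬ v ∈ σ := fun h => hv (hs h)
    rw [hσ, not_not] at h2
    rw [h2]; simp
  have hκe : ∀ Δ ∈ 𝒱, ∀ ε : ℝ, MvPolynomial.aeval (fun v => ε * (t Δ v : ℝ)) κ = ε * ∑ v ∈ Δ, (t Δ v : ℝ) := by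
    intro Δ hΔ ε
    rw [hκ, map_sum]
    simp only [MvPolynomial.aeval_X]
    rw [← Finset.mul_sum]
    congr 1
    symm
    refine Finset.sum_subset (Finset.subset_univ _) fun v _ hv => ?_
    rw [ht0 Δ hΔ v hv]; simp
  have hcC : ∀ Δ : Finset ι, Continuous fun ε : ℝ => MvPolynomial.aeval (fun v => ε * (t Δ v : ℝ)) C := by
    intro Δ
    simp_rw [aeval_smul]
    fun_prop
  have hDc : ∀ Δ : Finset ι, Continuous fun ε : ℝ => ∏ v ∈ σ, ((e v : ℝ) + ε * t Δ v) := by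
    intro Δ; fun_prop
  have hD0 : ∀ Δ : Finset ι, ∏ v ∈ σ, ((e v : ℝ) + 0 * t Δ v) ≠ 0 := by
    intro Δ
    rw [Finset.prod_ne_zero_iff]
    intro v hv
    rw [zero_mul, add_zero]
    exact hσe v hv
  refine ⟨⟨lamQ V 𝒱 t σ (C * W), ?_⟩, fun k => lamQ V 𝒱 t σ (C * (W * κ ^ k)), fun s hs => ?_,
    fun h k => h _⟩
  · have h1 := lim_abstract V 𝒱 t σ low {0} (fun _ => 1) (fun _ => C * W)
      (fun Δ ε => MvPolynomial.aeval (fun v => ε * (t Δ v : ℝ)) C)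
      (fun Δ ε => ∏ v ∈ σ, ((e v : ℝ) + ε * t Δ v))
      (fun Δ ε => MvPolynomial.aeval (fun v => ε * (t Δ v : ℝ)) W) B0
      (fun Δ _ _ => ⟨hDc Δ, hD0 Δ⟩) (fun Δ _ _ => hB0c Δ) (fun Δ _ _ => hcC Δ)
      (fun Δ _ _ ε => hB0 Δ ε) (fun Δ _ _ ε => by simp)
    simp only [Finset.sum_singleton, one_mul] at h1
    refine h1.congr fun ε => ?_
    refine Finset.sum_congr rfl fun Δ hΔ => ?_
    rw [Finset.mem_filter] at hΔ
    rw [hprod Δ hΔ.1 hΔ.2, mul_assoc]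
  · set x : ℝ := s + ((∑ v, e v : ℚ) : ℝ) with hx
    have hx0 : 0 < x := by
      have : (0 : ℝ) < ((∑ v, e v : ℚ) : ℝ) := by exact_mod_cast hpos
      linarith
    have h1 := lim_abstract V 𝒱 t σ low (Finset.range (n + 1)) (fun k => (-1) ^ k / x ^ (k + 1))
      (fun k => C * (W * κ ^ k))
      (fun Δ ε => MvPolynomial.aeval (fun v => ε * (t Δ v : ℝ)) C)
      (fun Δ ε => (x + ε * ∑ v ∈ Δ, (t Δ v : ℝ)) * ∏ v ∈ σ, ((e v : ℝ) + ε * t Δ v))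
      (fun Δ ε => winv (n + 1) x (ε * ∑ v ∈ Δ, (t Δ v : ℝ)) *
        MvPolynomial.aeval (fun v => ε * (t Δ v : ℝ)) W)
      (fun Δ ε => B0 Δ ε + (-((∑ v ∈ Δ, (t Δ v : ℝ)) / x)) ^ (n + 1) -
        ε ^ (n + 1) * (-((∑ v ∈ Δ, (t Δ v : ℝ)) / x)) ^ (n + 1) * B0 Δ ε)
      (fun Δ _ _ => ⟨by fun_prop, by
        rw [zero_mul, add_zero]
        exact mul_ne_zero hx0.ne' (hD0 Δ)⟩)
      (fun Δ _ _ => by
        have := hB0c Δ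
        fun_prop)
      (fun Δ _ _ => hcC Δ)
      (fun Δ _ _ ε => by
        have h2 := hB0 Δ ε
        have h3 := winv_mul (n + 1) hx0.ne' (ε * ∑ v ∈ Δ, (t Δ v : ℝ))
        have h4 : (-(ε * (∑ v ∈ Δ, (t Δ v : ℝ)) / x)) ^ (n + 1) =
            ε ^ (n + 1) * (-((∑ v ∈ Δ, (t Δ v : ℝ)) / x)) ^ (n + 1) := by
          rw [← mul_pow]; congr 1; ring
        rw [h4] at h3
        calc _ = ((x + ε * ∑ v ∈ Δ, (t Δ v : ℝ)) * winv (n + 1) x (ε * ∑ v ∈ Δ, (t Δ v : ℝ))) *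
              ((∏ v ∈ σ, ((e v : ℝ) + ε * t Δ v)) * MvPolynomial.aeval (fun v => ε * (t Δ v : ℝ)) W) := by
              ring
          _ = _ := by rw [h2, h3]; ring)
      (fun Δ hΔ _ ε => by
        unfold winv
        rw [Finset.sum_mul, Finset.mul_sum]
        refine Finset.sum_congr rfl fun k _ => ?_
        rw [map_mul, map_mul, map_pow, hκe Δ hΔ ε]
        ring)
    have h5 : ∑ k ∈ Finset.range (n + 1), (-1) ^ k / x ^ (k + 1) *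
        ((lamQ V 𝒱 t σ (C * (W * κ ^ k)) : ℚ) : ℝ) =
        ∑ k ∈ Finset.range (n + 1), (-1) ^ k * ((lamQ V 𝒱 t σ (C * (W * κ ^ k)) : ℚ) : ℝ) / x ^ (k + 1) :=
      Finset.sum_congr rfl fun k _ => by ring
    rw [h5] at h1
    refine h1.congr fun ε => ?_
    refine Finset.sum_congr rfl fun Δ hΔ => ?_
    rw [Finset.mem_filter] at hΔ
    rw [hprod Δ hΔ.1 hΔ.2, hsum Δ hΔ.1 hΔ.2]
    congr 1
    ring

end

end Pool.Agent.helper18.DL
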